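import Mathlib
import Pool.Agent.MP_4985b1_co.Final

set_option autoImplicit false

namespace Pool.Agent.Results.MP_4985b1_co.BipartiteLinear

/-- Q2: every complete bipartite geometric graph with `r` vertices in each class contains at
least `c r` pairwise crossing edges. -/
theorem result :
    ∃ c : ℝ, 0 < c ∧
      ∀ (r : ℕ) (V₁ V₂ : Finset (ℝ × ℝ)), 1 ≤ r → Disjoint V₁ V₂ → V₁.card = r → V₂.card = r →
        (∀ x ∈ V₁ ∪ V₂, ∀ y ∈ V₁ ∪ V₂, ∀ z ∈ V₁ ∪ V₂, x ≠ y → y ≠ z → x ≠ z →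
          ¬ Collinear ℝ ({x, y, z} : Set (ℝ × ℝ))) →
        ∃ F : Finset ((ℝ × ℝ) × (ℝ × ℝ)), F ⊆ V₁ ×ˢ V₂ ∧
          (∀ e ∈ F, ∀ e' ∈ F, e ≠ e' →
            (openSegment ℝ e.1 e.2 ∩ openSegment ℝ e'.1 e'.2).Nonempty) ∧
          c * (r : ℝ) ≤ (F.card : ℝ) :=
  Pool.Agent.MP_4985b1_co.q2

end Pool.Agent.Results.MP_4985b1_co.BipartiteLinear
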